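import Pool.Agent.H88.L.W476.TP.Stm

/-!
# Nullstellensatz estimates (subtask TP-EST)
-/

set_option autoImplicit false

namespace W351.TP

open MvPolynomial Pool.Agent.W476.TP

/-- polynomials are bounded on the unit polydisc -/
theorem bdd {C σ : Type} [NormedField C] (P : MvPolynomial σ C) :
    ∃ A : ℝ, 0 ≤ A ∧ ∀ y : σ → C, (∀ i, ‖y i‖ ≤ 1) → ‖eval y P‖ ≤ A := by
  refine ⟨∑ d ∈ P.support, ‖P.coeff d‖, Finset.sum_nonneg fun _ _ => norm_nonneg _, ?_⟩
  intro y hy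
  rw [MvPolynomial.eval_eq]
  refine (norm_sum_le _ _).trans (Finset.sum_le_sum fun d _ => ?_)
  rw [norm_mul, norm_prod]
  have h1 : ∏ i ∈ d.support, ‖y i ^ d i‖ ≤ 1 := by
    refine Finset.prod_le_one (fun _ _ => norm_nonneg _) fun i _ => ?_
    rw [norm_pow]
    exact pow_le_one₀ (norm_nonneg _) (hy i)
  calc ‖P.coeff d‖ * ∏ i ∈ d.support, ‖y i ^ d i‖ ≤ ‖P.coeff d‖ * 1 :=
        mul_le_mul_of_nonneg_left h1 (norm_nonneg _)
    _ = ‖P.coeff d‖ := mul_one _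

/-- one polynomial vanishing on the common zeros -/
theorem core {C σ : Type} [NormedField C] [IsAlgClosed C] [Finite σ] (J : Type) [Fintype J]
    (g : J → MvPolynomial σ C) (q : MvPolynomial σ C)
    (h : ∀ y : σ → C, (∀ j, eval y (g j) = 0) → eval y q = 0) (ε : ℝ) (hε : 0 < ε) :
    ∃ δ : ℝ, 0 < δ ∧ ∀ y : σ → C, (∀ i, ‖y i‖ ≤ 1) → (∀ j, ‖eval y (g j)‖ ≤ δ) →
      ‖eval y q‖ < ε := by
  have hq : q ∈ (Ideal.span (Set.range g)).radical := by
    rw [← MvPolynomial.vanishingIdeal_zeroLocus_eq_radical (K := C)]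
    rw [MvPolynomial.mem_vanishingIdeal_iff]
    intro y hy
    rw [MvPolynomial.mem_zeroLocus_iff] at hy
    have := h y (fun j => by
      have := hy (g j) (Ideal.subset_span ⟨j, rfl⟩)
      rwa [MvPolynomial.aeval_eq_eval] at this)
    rwa [MvPolynomial.aeval_eq_eval]
  obtain ⟨k, hk⟩ := hq
  have hk' : q ^ (k + 1) ∈ Ideal.span (Set.range g) := by
    rw [pow_succ]; exact Ideal.mul_mem_right _ _ hk
  rw [Ideal.mem_span_range_iff_exists_fun] at hk'
  obtain ⟨c, hc⟩ := hk'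
  choose A hA0 hA using fun j => bdd (c j)
  set B : ℝ := ∑ j, A j with hB
  have hB0 : 0 ≤ B := Finset.sum_nonneg fun j _ => hA0 j
  refine ⟨ε ^ (k + 1) / (B + 1) / 2, by positivity, ?_⟩
  intro y hy hg
  have h1 : ‖eval y q‖ ^ (k + 1) ≤ B * (ε ^ (k + 1) / (B + 1) / 2) := by
    rw [← norm_pow, ← map_pow, ← hc, map_sum, hB, Finset.sum_mul]
    refine (norm_sum_le _ _).trans (Finset.sum_le_sum fun j _ => ?_)
    rw [map_mul, norm_mul]
    exact mul_le_mul (hA j y hy) (hg j) (norm_nonneg _) (hA0 j)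
  have h2 : B * (ε ^ (k + 1) / (B + 1) / 2) < ε ^ (k + 1) := by
    have h3 : 0 < ε ^ (k + 1) := by positivity
    rw [div_div, mul_div_assoc', div_lt_iff₀ (by positivity)]
    nlinarith
  exact lt_of_pow_lt_pow_left₀ (k + 1) hε.le (h1.trans_lt h2)

/-- a finite family -/
theorem coreF {C σ : Type} [NormedField C] [IsAlgClosed C] [Finite σ] (J : Type) [Fintype J]
    (T : Type) [Finite T]
    (g : J → MvPolynomial σ C) (q : T → MvPolynomial σ C)
    (h : ∀ y : σ → C, (∀ j, eval y (g j) = 0) → ∀ t, eval y (q t) = 0) (ε : ℝ) (hε : 0 < ε) :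
    ∃ δ : ℝ, 0 < δ ∧ ∀ y : σ → C, (∀ i, ‖y i‖ ≤ 1) → (∀ j, ‖eval y (g j)‖ ≤ δ) →
      ∀ t, ‖eval y (q t)‖ < ε := by
  choose δ hδ0 hδ using fun t => core J g (q t) (fun y hy => h y hy t) ε hε
  have hex : ∃ d : ℝ, 0 < d ∧ ∀ t, d ≤ δ t := by
    rcases isEmpty_or_nonempty T with hT | hT
    · exact ⟨1, one_pos, fun t => (hT.false t).elim⟩
    · obtain ⟨t0, ht0⟩ := Finite.exists_min δ
      exact ⟨δ t0, hδ0 t0, ht0⟩
  obtain ⟨d, hd0, hd⟩ := hex
  exact ⟨d, hd0, fun y hy hg t => hδ t y hy fun j => (hg j).trans (hd t)⟩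

/-- the monomial attached to a choice of one coordinate in each group -/
noncomputable def Y {C : Type} [NormedField C] {r : ℕ} (m : Fin r → ℕ)
    (f : (κ : Fin r) → Fin (m κ + 1)) : MvPolynomial (Sig m) C :=
  ∏ κ, X (⟨κ, f κ⟩ : Sig m)

theorem Y_eval {C : Type} [NormedField C] {r : ℕ} (m : Fin r → ℕ)
    (f : (κ : Fin r) → Fin (m κ + 1)) (y : Sig m → C) :
    eval y (Y (C := C) m f) = ∏ κ, y ⟨κ, f κ⟩ := by
  simp [Y, map_prod]

theorem Y_zero {C : Type} [NormedField C] {r : ℕ} (m : Fin r → ℕ)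
    (f : (κ : Fin r) → Fin (m κ + 1)) (y : Sig m → C) (h : ¬ Pool.Agent.W476.TP.Rel y) :
    eval y (Y (C := C) m f) = 0 := by
  rw [Y_eval]
  unfold Pool.Agent.W476.TP.Rel at h
  push Not at h
  obtain ⟨κ, hκ⟩ := h
  exact Finset.prod_eq_zero (Finset.mem_univ κ) (hκ _)

theorem Y_one {C : Type} [NormedField C] {r : ℕ} (m : Fin r → ℕ) (y : Sig m → C)
    (h : Nrm y) : ∃ f : (κ : Fin r) → Fin (m κ + 1), ‖eval y (Y (C := C) m f)‖ = 1 := by
  choose f hf using h.2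
  refine ⟨f, ?_⟩
  rw [Y_eval, norm_prod]
  exact Finset.prod_eq_one fun κ _ => hf κ

theorem t_NZ : S_NZ := by
  intro C _ _ _ r m J _ q h
  obtain ⟨δ, hδ0, hδ⟩ := coreF J ((κ : Fin r) → Fin (m κ + 1)) q (fun f => Y m f)
    (fun y hy f => by
      refine Y_zero m f y fun hrel => ?_
      obtain ⟨j, hj⟩ := h y hrel
      exact hj (hy j)) 1 one_pos
  refine ⟨δ, hδ0, fun y hy => ?_⟩
  by_contra hcon
  push Not at hcon
  obtain ⟨f, hf⟩ := Y_one m y hy
  have := hδ y hy.1 (fun j => (hcon j).le) f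
  rw [hf] at this
  exact lt_irrefl _ this

theorem t_VAN : S_VAN := by
  intro C _ _ _ r m J _ g q h ε hε
  obtain ⟨δ, hδ0, hδ⟩ := coreF J ((κ : Fin r) → Fin (m κ + 1)) g (fun f => q * Y m f)
    (fun y hy f => by
      by_cases hrel : Pool.Agent.W476.TP.Rel y
      · rw [map_mul, h y hrel hy, zero_mul]
      · rw [map_mul, Y_zero m f y hrel, mul_zero]) ε hε
  refine ⟨δ, hδ0, fun y hy hg => ?_⟩
  obtain ⟨f, hf⟩ := Y_one m y hy
  have := hδ y hy.1 hg f
  rw [map_mul, norm_mul, hf, mul_one] at this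
  exact this.le

theorem t_UP : S_UP := by
  intro C _ _ _ n d I hI l hl
  classical
  obtain ⟨G, hG⟩ : I.FG := IsNoetherian.noetherian I
  set Q : Finset (MvPolynomial (Fin (n + 1)) C) :=
    G.biUnion fun P => (Finset.range (P.totalDegree + 1)).image fun k => homogeneousComponent k P
    with hQ
  have hQmem : ∀ P ∈ Q, P ∈ I ∧ ∃ k, P.IsHomogeneous k := by
    intro P hP
    rw [hQ, Finset.mem_biUnion] at hP
    obtain ⟨R, hR, hP⟩ := hP
    rw [Finset.mem_image] at hP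
    obtain ⟨k, _, rfl⟩ := hP
    have hRI : R ∈ I := by rw [← hG]; exact Ideal.subset_span hR
    exact ⟨hI R hRI k, k, homogeneousComponent_isHomogeneous k R⟩
  have hzero : ∀ x : Fin (n + 1) → C, (∀ P ∈ Q, eval x P = 0) → ∀ P ∈ I, eval x P = 0 := by
    intro x hx P hP
    have hle : I ≤ RingHom.ker (eval x) := by
      rw [← hG, Ideal.span_le]
      intro R hR
      rw [SetLike.mem_coe, RingHom.mem_ker, ← sum_homogeneousComponent R, map_sum]
      refine Finset.sum_eq_zero fun k hk => hx _ ?_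
      rw [hQ, Finset.mem_biUnion]
      exact ⟨R, hR, Finset.mem_image.2 ⟨k, hk, rfl⟩⟩
    exact (RingHom.mem_ker).1 (hle hP)
  set lin : Fin d → MvPolynomial (Fin (n + 1)) C := fun k => ∑ i, MvPolynomial.C (l k i) * X i
    with hlin
  have hline : ∀ k (x : Fin (n + 1) → C), eval x (lin k) = ∑ i, l k i * x i := by
    intro k x
    simp [hlin, map_sum]
  obtain ⟨δ, hδ0, hδ⟩ := coreF ({P // P ∈ Q} ⊕ Fin d) (Fin (n + 1))
    (Sum.elim (fun P => P.1) lin) (fun i => X i)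
    (fun x hx i => by
      have h1 : ∀ P ∈ Q, eval x P = 0 := fun P hP => hx (Sum.inl ⟨P, hP⟩)
      have h2 : ∀ k, ∑ i, l k i * x i = 0 := fun k => by
        rw [← hline]; exact hx (Sum.inr k)
      have := hl x (hzero x h1) h2
      simp [this]) 1 one_pos
  refine ⟨Q, δ, hδ0, hQmem, fun x hx1 hx2 hx3 => ?_⟩
  by_contra hcon
  push Not at hcon
  obtain ⟨i, hi⟩ := hx2
  have := hδ x hx1 (fun j => by
    rcases j with P | k
    · exact hx3 P.1 P.2
    · rw [Sum.elim_inr, hline]; exact hcon k) i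
  rw [eval_X, hi] at this
  exact lt_irrefl _ this

end W351.TP
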